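import Pool.Agent.Helper569.CircleDefs
import Pool.Agent.Helper569.CircleWitness

open Pool.Agent.Helper569.Circle

namespace Pool.Agent.Results.MP_925b40_pr.UndirectedCircle

/-- On the undirected circle the strategy CO-HA-TO has expected meeting time `3/4`, but the
symmetric rendezvous value is at most `269/360 < 3/4`; so CO-HA-TO is not an optimal symmetric
strategy. -/
theorem result :
    symmetricTime undirectedTime coHaTo = 3 / 4 ∧
      symmetricValue undirectedTime ≤ 269 / 360 ∧
      ¬ IsOptimalSymmetric undirectedTime coHaTo := by
  have h1 : symmetricValue undirectedTime ≤ 269 / 360 :=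
    (iInf_le _ better).trans better_undirected
  refine ⟨coHaTo_undirected, h1, fun h => ?_⟩
  unfold IsOptimalSymmetric at h
  rw [coHaTo_undirected] at h
  rw [← h] at h1
  exact absurd h1 (not_le.2 lt_three_quarters)

end Pool.Agent.Results.MP_925b40_pr.UndirectedCircle
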